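import Pool.Agent.Lib.MP_3a6623_al.Proof

/-!
# A counterexample to the subnormalizer conjecture for elements of mixed order

`G = (S₃ × C₂) ≀ C₂` (of order `288`) and `x = ((s,1),(r,1))` in the base group, with `s` a
transposition and `r` a 3-cycle.  The `2`-part of `x` is `((s,1),1)` and the `3`-part is
`(1,(r,1))`; the subnormalizers of both are the whole group, so that property (SS) holds trivially
for them.  The group `G` has the quotient `C₂ ≀ C₂`, dihedral of order `8`, in which `x` becomes
trivial; hence `G` has an irreducible character `χ` with `χ x = 2`.  But the subnormalizer of `x`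
is contained in `(⟨s⟩ × C₂) × (S₃ × C₂)`, and no irreducible character of it has value `±2` at `x`.
-/

namespace Pool.Agent.Results.MP_3a6623_al.Wreath288

open Pool.Agent.MP3a6623

/-- The counterexample: `G` has order `288`, `x` has order `6`, property (SS) holds for all primary
parts of `x`, and there is no bijection `f : Irr^x(G) → Irr^x(Sub_G(x))` with `f(χ)(x) = ±χ(x)`. -/
theorem result : ∃ (G : Type) (_ : Group G) (x : G), Nat.card G = 288 ∧ orderOf x = 6 ∧
    (∀ p : ℕ, p.Prime → p ∣ orderOf x → ∀ y : G, IsPPart p x y → SS p y) ∧
    ¬ ∃ f : (G → ℂ) → (subnormalizer x → ℂ), IsSignBijection x f := main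

end Pool.Agent.Results.MP_3a6623_al.Wreath288
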